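import Pool.Agent.Y555.KC.Refl

/-!
# Continuum many logics with the Kripke criterion that are not strongly Kripke complete

There are continuum many normal logics with the Kripke criterion that are not strongly Kripke
complete and lack the Craig interpolation property.

The logics are `GLf ∩ L`, where `GLf` is the logic of all finite transitive irreflexive frames and
`L` is a serial logic all of whose frames have at most three successors at each point; `L` has the
Kripke criterion because its canonical frame is a frame for `L` (`criterion_of_alt`), and `L` can
be read off from `GLf ∩ L`.
-/

set_option autoImplicit false

namespace Pool.Agent.Results.MP_e3277b_lc.ContinuumManyLogics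

open H539R3.IEP H539R3.IEP.Form H539R3.KC Pool.Agent.Y555.KC

universe u

/-- **There are continuum many normal modal logics which have the Kripke criterion, but are not
strongly Kripke complete and lack the Craig interpolation property.** -/
theorem result :
    ∃ F : Set ℕ → Set Form, Function.Injective F ∧ ∀ S : Set ℕ,
      Normal (F S) ∧ KripkeCriterion.{u} (F S) ∧ ¬ StronglyKripkeComplete.{u} (F S) ∧
      ¬ CIP (F S) :=
  ⟨FF, FF_injective, FF_all⟩

end Pool.Agent.Results.MP_e3277b_lc.ContinuumManyLogics
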