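import Pool.Agent.Y555.KC.Refl

/-!
# Intersections with `GL`

`GLf` is the logic of all finite transitive irreflexive frames, `delta = ◇⊤ → ◇□⊥`.

For *every* normal logic `L` containing `◇⊤` the logic `GLf ∩ L` is not strongly Kripke complete,
and it has the Kripke criterion (the Craig interpolation property) if and only if `L` has.
Moreover `L` can be read off from `GLf ∩ L`: `a ∈ L` iff `¬δ → a ∈ GLf ∩ L`. So every serial logic
with the Kripke criterion gives a logic with the Kripke criterion that is not strongly Kripke
complete.
-/

set_option autoImplicit false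

namespace Pool.Agent.Results.MP_e3277b_lc.SerialTransfer

open H539R3.IEP H539R3.IEP.Form H539R3.KC Pool.Agent.Y555.KC

universe u

/-- **Intersecting a serial normal logic with `GL` destroys strong Kripke completeness, but
preserves and reflects the Kripke criterion and the Craig interpolation property.** -/
theorem result (L : Set Form) (hL : Normal L) (hD : dia top ∈ L) :
    Normal (GLf ∩ L) ∧ ¬ StronglyKripkeComplete.{u} (GLf ∩ L) ∧
      (KripkeCriterion.{u} (GLf ∩ L) ↔ KripkeCriterion.{u} L) ∧
      (CIP (GLf ∩ L) ↔ CIP L) ∧
      ∀ a : Form, imp (neg delta) a ∈ GLf ∩ L ↔ a ∈ L :=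
  ⟨normal_inter GLf_normal hL, comb_not_strong hL hD,
    ⟨criterion_refl hL hD, comb_criterion hL hD⟩, ⟨cip_refl hL hD, cip_pres hL hD⟩,
    comb_mem hL hD⟩

end Pool.Agent.Results.MP_e3277b_lc.SerialTransfer
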